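import Pool.Agent.R268.WE.Final

/-!
MP_f76f53_an, Q1: full positive answer.

There is a constant `c > 0` such that `‖T^*‖_w ≥ c ‖T‖_w` for every bounded operator `T` on
`C[0,1]`, where `‖·‖_w` is the weak essential norm (distance to the weakly compact operators):
one can take `c = 1/2` for real scalars and `c = 1/4` for complex scalars.

Definitions (all in `Pool/Agent/R268/WE/WCpt.lean`):
* `IsWeaklyCompactOp 𝕜 W`: the closure, in the weak topology, of the image of the closed unit ball
  under `W` is weakly compact;
* `wEssNorm 𝕜 T`: the infimum of `‖T - W‖` over the weakly compact `W` (same source and target);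
* `adj 𝕜 T`: the adjoint `T^* : F^* → E^*`, `T^* φ = φ ∘ T`;
* `DualK 𝕜 E`: the dual `E^*` (continuous `𝕜`-linear functionals, operator norm).
-/

namespace Pool.Agent.Results.MP_f76f53_an.WeakEssentialNormDuality

open R268.WE unitInterval

/-- The weak essential norm of an operator on `C[0,1]` is controlled by the weak essential norm of
its adjoint. -/
theorem result :
    (∀ T : C(I, ℝ) →L[ℝ] C(I, ℝ), (1 / 2 : ℝ) * wEssNorm ℝ T ≤ wEssNorm ℝ (adj ℝ T)) ∧
    (∀ T : C(I, ℂ) →L[ℂ] C(I, ℂ), (1 / 4 : ℝ) * wEssNorm ℂ T ≤ wEssNorm ℂ (adj ℂ T)) := by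
  constructor
  · intro T
    refine le_wEssNorm _ _ fun V hV => ?_
    have := real_case T V hV
    linarith
  · intro T
    refine le_wEssNorm _ _ fun V hV => ?_
    have := complex_case T V hV
    linarith

end Pool.Agent.Results.MP_f76f53_an.WeakEssentialNormDuality
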